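import Pool.Agent.Helper77.FV.TMain

open Module Pool.Agent.Helper77.LieForms

namespace Pool.Agent.Results.MP_24023e_gt.LieHermitianCase

/-- **The Fino–Vezzoni conjecture for left-invariant structures.**  Let `L` be a unimodular
finite-dimensional real Lie algebra with an integrable complex structure `J`.  If `J` admits a
balanced Hermitian metric `g₁` and a pluriclosed Hermitian metric `g₂`, then it admits a Kähler
metric `g₃`; moreover `g₃` can be chosen in the Aeppli class of `g₂`, that is, its fundamental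
form is `ω₂ - (d α)^{1,1}` for some `α` in the dual of `L` (recall `d α (x, y) = - α [x, y]`). -/
theorem result (L : Type*) [LieRing L] [LieAlgebra ℝ L] [FiniteDimensional ℝ L]
    (hL : IsUnimodular L) (J : L →ₗ[ℝ] L) (hJ : IsComplexStructure J)
    (g₁ g₂ : LinearMap.BilinForm ℝ L)
    (h₁ : IsHermitianMetric J g₁) (hb : IsBalanced J g₁)
    (h₂ : IsHermitianMetric J g₂) (hp : IsPluriclosed J g₂) :
    ∃ g₃ : LinearMap.BilinForm ℝ L, IsHermitianMetric J g₃ ∧ IsKahler J g₃ ∧
      ∃ α : Dual ℝ L, ∀ x y, omega J g₃ x y =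
        omega J g₂ x y + (1 / 2) * (α ⁅x, y⁆ + α ⁅J x, J y⁆) :=
  Pool.Agent.Helper77.FV.exists_kahler_tuple hL hJ h₁ h₂ hb hp

end Pool.Agent.Results.MP_24023e_gt.LieHermitianCase
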