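import Pool.Agent.Helper8.KW.Conv

/-!
# The Fino–Vezzoni conjecture on compact locally homogeneous complex manifolds

Let `G` be a unimodular Lie group, `K` a compact connected subgroup with Lie algebra `k` and `Γ` a
discrete subgroup of `G` such that `G / Γ` is compact; `M = K \ G / Γ` is diffeomorphic (by
`g ↦ g⁻¹`) to `Γ \ G / K`.  An invariant complex structure of the homogeneous space `G / K` gives a
complex structure on `M`.  Up to finite coverings these are all compact complex manifolds whose
universal covering is homogeneous under a Lie group of biholomorphic maps which acts with compact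
isotropy groups and contains the fundamental group.  Tensors on `M` are the basic tensors on
`G / Γ` (see `Pool.Agent.Helper8.KW.Pub`).
-/

open Manifold ContDiff MeasureTheory Pool.Agent.Helper8.KW

namespace Pool.Agent.Results.MP_24023e_gt.LocallyHomogeneous

/-- **The Fino–Vezzoni conjecture for all Hermitian metrics on compact locally homogeneous complex
manifolds.**  Let `G` be a Lie group with unimodular Lie algebra `L`, `Γ` a discrete subgroup such
that `G / Γ` is compact, `μ` the invariant probability measure of `G / Γ` and `S` an invariant
complex structure on a homogeneous space of `G` (an isotropy algebra `k` and `J` on `L / k`); they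
make `M = K \ G / Γ` a complex manifold.  If `M` has a balanced Hermitian metric `g₁` and a
pluriclosed Hermitian metric `g₂` (arbitrary smooth metrics, not assumed to be locally
homogeneous), then `M` has a locally homogeneous Kähler metric `g₃`; it can be chosen such that its
fundamental form is the sum of the average of the fundamental form of `g₂` and of the `(1,1)`-part
of the differential of an invariant basic `1`-form. -/
theorem result {E : Type*} [NormedAddCommGroup E] [NormedSpace ℝ E] [FiniteDimensional ℝ E]
    {G : Type*} [TopologicalSpace G] [ChartedSpace E G] [Group G] [LieGroup 𝓘(ℝ, E) ∞ G]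
    (Γ : Subgroup G) [DiscreteTopology Γ] [CompactSpace (G ⧸ Γ)]
    [MeasurableSpace (G ⧸ Γ)] [BorelSpace (G ⧸ Γ)] (μ : Measure (G ⧸ Γ))
    [IsProbabilityMeasure μ] [SMulInvariantMeasure G (G ⧸ Γ) μ]
    (hL : IsUnimodular (LieAlg E G)) (S : InvariantComplexStructure (LieAlg E G))
    (g₁ g₂ : Metric (calculus E Γ) S) (h₁ : g₁.Balanced) (h₂ : g₂.Pluriclosed) :
    ∃ g₃ : Metric (calculus E Γ) S, g₃.Kahler ∧ g₃.LocallyHomogeneous ∧ g₃.IsAverage μ g₂ :=
  main μ hL g₁ g₂ h₁ h₂

end Pool.Agent.Results.MP_24023e_gt.LocallyHomogeneous
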