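import Pool.Agent.Helper80.TF.Main

open Manifold Pool.Agent.Helper80.TF

namespace Pool.Agent.Results.MP_24023e_gt.TorusFibrationsOverCurves

/-- **The Fino–Vezzoni conjecture for torus fibrations over compact Riemann surfaces.**
Let `f : M → B` be a holomorphic fibration with fibres complex tori (`TorusFibration`; the moduli
of the fibres may vary, the monodromy is arbitrary and no section is needed) over a compact
connected complex manifold `B` of dimension `1`.  If the complex manifold `M` has a balanced
Hermitian metric and a pluriclosed Hermitian metric, then it has a Kähler metric.  Hermitian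
metrics are given by their fundamental forms. -/
theorem result {V W : Type*} [NormedAddCommGroup V] [NormedSpace ℂ V]
    [NormedAddCommGroup W] [NormedSpace ℂ W] {B M : Type*} [TopologicalSpace B]
    [ChartedSpace V B] [IsManifold 𝓘(ℂ, V) ⊤ B] [CompactSpace B] [ConnectedSpace B]
    [TopologicalSpace M] [ChartedSpace (V × W) M] [IsManifold 𝓘(ℂ, V × W) ⊤ M]
    (hV : Module.finrank ℂ V = 1) {f : M → B} {r : ℕ} (T : TorusFibration r V W f)
    (g₁ g₂ : M → (V × W) [⋀^Fin 2]→L[ℝ] ℝ) (h₁ : IsHermitian g₁) (hb : Balanced g₁)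
    (h₂ : IsHermitian g₂) (hp : Pluriclosed g₂) :
    ∃ g₃ : M → (V × W) [⋀^Fin 2]→L[ℝ] ℝ, IsHermitian g₃ ∧ Kahler g₃ :=
  T.kahler_of_curve hV h₁ hb h₂ hp

end Pool.Agent.Results.MP_24023e_gt.TorusFibrationsOverCurves
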