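import Pool.Agent.Helper80.TF.MainP

open Manifold Pool.Agent.Helper80.TF

namespace Pool.Agent.Results.MP_24023e_gt.TorusFibrationsWithSection

/-- **The Fino–Vezzoni conjecture for torus fibrations with a section: reduction to the base.**
Let `f : M → B` be a holomorphic fibration with fibres complex tori (`TorusFibration`) and with a
holomorphic section `s`, over a compact connected complex manifold `B` of any dimension.  If `M`
has a balanced Hermitian metric and a pluriclosed Hermitian metric, then `M` has a Kähler metric,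
or `B` is itself a counterexample of dimension at least `3`: it has a balanced metric and a
pluriclosed metric but no Kähler metric.  In particular the conjecture holds for these manifolds
if `B` is Kähler or of dimension at most `2`.  Hermitian metrics are given by their fundamental
forms. -/
theorem result {V W : Type*} [NormedAddCommGroup V] [NormedSpace ℂ V] [FiniteDimensional ℂ V]
    [NormedAddCommGroup W] [NormedSpace ℂ W] {B M : Type*} [TopologicalSpace B]
    [ChartedSpace V B] [IsManifold 𝓘(ℂ, V) ⊤ B] [CompactSpace B] [ConnectedSpace B]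
    [TopologicalSpace M] [ChartedSpace (V × W) M] [IsManifold 𝓘(ℂ, V × W) ⊤ M]
    {f : M → B} {r : ℕ} (T : TorusFibration r V W f) (s : B → M)
    (hs : ContMDiff 𝓘(ℂ, V) 𝓘(ℂ, V × W) ⊤ s) (hf : ∀ b, f (s b) = b)
    (g₁ g₂ : M → (V × W) [⋀^Fin 2]→L[ℝ] ℝ) (h₁ : IsHermitian g₁) (hb : Balanced g₁)
    (h₂ : IsHermitian g₂) (hp : Pluriclosed g₂) :
    (∃ g₃ : M → (V × W) [⋀^Fin 2]→L[ℝ] ℝ, IsHermitian g₃ ∧ Kahler g₃) ∨
      (3 ≤ Module.finrank ℂ V ∧
        (∃ κ : B → V [⋀^Fin 2]→L[ℝ] ℝ, IsHermitian κ ∧ Balanced κ) ∧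
        (∃ κ : B → V [⋀^Fin 2]→L[ℝ] ℝ, IsHermitian κ ∧ Pluriclosed κ) ∧
        ¬ ∃ κ : B → V [⋀^Fin 2]→L[ℝ] ℝ, IsHermitian κ ∧ Kahler κ) := by
  obtain ⟨h3, h4, h5⟩ := T.reduction h₁ hb h₂ hp hs hf
  by_cases h : Module.finrank ℂ V ≤ 2 ∨ ∃ κ : B → V [⋀^Fin 2]→L[ℝ] ℝ, IsHermitian κ ∧ Kahler κ
  · exact Or.inl (h5 h)
  · rw [not_or] at h
    exact Or.inr ⟨by omega, h3, h4, h.2⟩

end Pool.Agent.Results.MP_24023e_gt.TorusFibrationsWithSection
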